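import Pool.Agent.Helper33.Iso.Goals

/-!
# Packet ISO-SPHERE: maps from the sphere and spheroids
-/

set_option autoImplicit false

open Topology unitInterval Set
open Pool.Agent.Helper72.Orb Pool.Agent.Helper33.Iso

namespace Pool.Agent.Helper15.Iso

universe u v

theorem gSPHERE : Pool.Agent.Helper33.Iso.SPHERE.{u, v} := by
  classical
  intro Z _ _ _ N hN hZ
  have hfr : Module.finrank ℝ ((Fin N → ℝ) × ℝ) = Module.finrank ℝ Z := by
    rw [hZ, Module.finrank_prod]
    simp
  let Λ : ((Fin N → ℝ) × ℝ) ≃L[ℝ] Z := ContinuousLinearEquiv.ofFinrankEq hfr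
  let k0 : C(Fin N → I, Z) := ⟨fun x => Λ (kap x), Λ.continuous.comp continuous_kap⟩
  have hk : ∀ x, k0 x = Λ (kap x) := fun x => rfl
  have hk0 : ∀ x, k0 x ≠ 0 := by
    intro x h
    apply kap_ne_zero x
    apply Λ.injective
    rw [map_zero]
    exact h
  have hn : ∀ x, 0 < ‖k0 x‖ := fun x => norm_pos_iff.2 (hk0 x)
  let κ : C(Fin N → I, Metric.sphere (0 : Z) 1) :=
    { toFun := fun x => ⟨‖k0 x‖⁻¹ • k0 x, by
        rw [mem_sphere_zero_iff_norm, norm_smul, norm_inv, norm_norm,
          inv_mul_cancel₀ (hn x).ne']⟩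
      continuous_toFun := by
        apply Continuous.subtype_mk
        exact (k0.continuous.norm.inv₀ fun x => (hn x).ne').smul k0.continuous }
  have hκ : ∀ x, (κ x : Z) = ‖k0 x‖⁻¹ • k0 x := fun x => rfl
  have hκn : ∀ x, ‖(κ x : Z)‖ = 1 := fun x => mem_sphere_zero_iff_norm.1 (κ x).2
  have hbdκ : ConstBd κ := by
    intro x hx y hy
    apply Subtype.ext
    rw [hκ, hκ, hk, hk, kap_boundary hx, kap_boundary hy]
  have hray : ∀ x x', κ x = κ x' →
      x = x' ∨ (x ∈ Cube.boundary (Fin N) ∧ x' ∈ Cube.boundary (Fin N)) := by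
    intro x x' h
    have h1 : ‖k0 x‖⁻¹ • k0 x = ‖k0 x'‖⁻¹ • k0 x' := congrArg Subtype.val h
    have h2 : ‖k0 x‖⁻¹ • kap x = ‖k0 x'‖⁻¹ • kap x' := by
      apply Λ.injective
      rw [map_smul, map_smul]
      exact h1
    exact (kap_ray (inv_pos.2 (hn x)) (inv_pos.2 (hn x')) h2).2
  have hdir : ∀ y : Z, y ≠ 0 → ∃ x, y = ‖y‖ • (κ x : Z) := by
    intro y h0
    obtain ⟨x, s, hs, hx⟩ := exists_kap hN (Λ.symm y) (by
      intro h
      apply h0
      apply Λ.symm.injective
      rw [h, map_zero])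
    have hy' : y = s • k0 x := by
      rw [hk, ← map_smul, ← hx, ContinuousLinearEquiv.apply_symm_apply]
    refine ⟨x, ?_⟩
    rw [hκ, hy', norm_smul, Real.norm_eq_abs, abs_of_pos hs, smul_smul]
    congr 1
    rw [mul_assoc, mul_inv_cancel₀ (hn x).ne', mul_one]
  -- the quotient map onto the ball
  let m : C(I × (Fin N → I), Metric.closedBall (0 : Z) 1) :=
    { toFun := fun p => ⟨(p.1 : ℝ) • (κ p.2 : Z), by
        rw [mem_closedBall_zero_iff, norm_smul, hκn, mul_one, Real.norm_eq_abs,
          abs_of_nonneg p.1.2.1]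
        exact p.1.2.2⟩
      continuous_toFun := by
        apply Continuous.subtype_mk
        have h3 : Continuous fun p : I × (Fin N → I) => (p.1 : ℝ) :=
          continuous_subtype_val.comp continuous_fst
        have h2 : Continuous fun p : I × (Fin N → I) => (κ p.2 : Z) :=
          continuous_subtype_val.comp (κ.continuous.comp continuous_snd)
        exact h3.smul h2 }
  have hm : ∀ p, (m p : Z) = (p.1 : ℝ) • (κ p.2 : Z) := fun p => rfl
  have hmn : ∀ p, ‖(m p : Z)‖ = p.1 := by
    intro p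
    rw [hm, norm_smul, hκn, mul_one, Real.norm_eq_abs, abs_of_nonneg p.1.2.1]
  have hsurj : Function.Surjective m := by
    rintro ⟨y, hy⟩
    rw [mem_closedBall_zero_iff] at hy
    by_cases h0 : y = 0
    · subst h0
      refine ⟨(0, fun _ => 0), Subtype.ext ?_⟩
      rw [hm]
      simp
    · obtain ⟨x, hx⟩ := hdir y h0
      refine ⟨(⟨‖y‖, norm_nonneg _, hy⟩, x), Subtype.ext ?_⟩
      rw [hm]
      exact hx.symm
  have hquot : IsQuotientMap m :=
    (m.continuous.isClosedMap).isQuotientMap m.continuous hsurj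
  refine ⟨κ, hbdκ, ?_⟩
  intro A _ W
  constructor
  · rintro ⟨K, hK0, hKb, hK1⟩
    let g : C(I × (Fin N → I), A) := ⟨fun p => K (σ p.1, p.2), by
      exact K.continuous.comp ((continuous_symm.comp continuous_fst).prodMk continuous_snd)⟩
    have hfac : Function.FactorsThrough g m := by
      rintro ⟨τ, x⟩ ⟨τ', x'⟩ h
      have hττ : τ = τ' := by
        apply Subtype.ext
        rw [← hmn (τ, x), ← hmn (τ', x'), h]
      subst hττ
      change K (σ τ, x) = K (σ τ, x')
      by_cases h0 : τ = 0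
      · rw [h0, unitInterval.symm_zero]
        exact hK1 x x'
      · have hpos : (0 : ℝ) < τ := unitInterval.pos_iff_ne_zero.2 h0
        have hv : (τ : ℝ) • (κ x : Z) = (τ : ℝ) • (κ x' : Z) := congrArg Subtype.val h
        have h1 : κ x = κ x' := Subtype.ext (smul_right_injective _ hpos.ne' hv)
        rcases hray x x' h1 with h3 | ⟨h3, h4⟩
        · rw [h3]
        · exact hKb _ x h3 x' h4
    let Ψ : C(Metric.closedBall (0 : Z) 1, A) := hquot.lift g hfac
    have hΨ : ∀ p, Ψ (m p) = K (σ p.1, p.2) := by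
      intro p
      have := hquot.lift_comp g hfac
      exact congrArg (fun f : C(I × (Fin N → I), A) => f p) this
    refine ⟨Ψ, fun z => ?_⟩
    have hz1 : ‖(z : Z)‖ = 1 := mem_sphere_zero_iff_norm.1 z.2
    obtain ⟨x, hx⟩ := hdir (z : Z) (by
      intro h
      rw [h, norm_zero] at hz1
      exact zero_ne_one hz1)
    have hx' : κ x = z := by
      apply Subtype.ext
      rw [hx, hz1, one_smul]
    have h2 : (⟨z.1, Metric.sphere_subset_closedBall z.2⟩ : Metric.closedBall (0 : Z) 1)
        = m (1, x) := by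
      apply Subtype.ext
      rw [hm, hx']
      simp
    rw [h2, hΨ]
    simp only [unitInterval.symm_one]
    rw [hK0, ContinuousMap.comp_apply, hx']
  · rintro ⟨Ψ, hΨ⟩
    refine ⟨⟨fun p => Ψ (m (σ p.1, p.2)), ?_⟩, ?_, ?_, ?_⟩
    · exact Ψ.continuous.comp (m.continuous.comp
        ((continuous_symm.comp continuous_fst).prodMk continuous_snd))
    · intro x
      change Ψ (m (σ 0, x)) = W (κ x)
      rw [← hΨ (κ x), unitInterval.symm_zero]
      congr 1
      apply Subtype.ext
      rw [hm]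
      simp
    · intro t x hx y hy
      change Ψ (m (σ t, x)) = Ψ (m (σ t, y))
      congr 1
      apply Subtype.ext
      rw [hm, hm]
      simp only [hbdκ x hx y hy]
    · intro x y
      change Ψ (m (σ 1, x)) = Ψ (m (σ 1, y))
      congr 1
      apply Subtype.ext
      rw [hm, hm, unitInterval.symm_one]
      simp

end Pool.Agent.Helper15.Iso
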